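import Pool.Agent.H37.CNU.Stmts

/-!
# Row `UNB` of the board `cnu`: the elements of `SU_3(q)` with `g_10 = g_20 = 0`
-/

set_option autoImplicit false

namespace Pool.CND

open Finset Matrix

/-- the entries of `g J (σ g)ᵀ = J` -/
theorem unb_ent {F : Type} [Field F] (σ : F →+* F) (g : SU3 σ) (i j : Fin 3) :
    g.1.1 i 0 * σ (g.1.1 j 2) + g.1.1 i 2 * σ (g.1.1 j 0) - g.1.1 i 1 * σ (g.1.1 j 1) =
      J3 F i j := by
  have h2 : g.1.1 * J3 F * (g.1.1.map σ)ᵀ = J3 F := g.2
  have h3 := congrFun (congrFun h2 i) j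
  rw [← h3]
  simp only [Matrix.mul_apply, J3, Fin.sum_univ_three, Matrix.transpose_apply, Matrix.map_apply,
    Matrix.of_apply, Matrix.cons_val', Matrix.cons_val_zero, Matrix.cons_val_one,
    Matrix.cons_val]
  ring

/-- shape -/
theorem unb_shape {F : Type} [Field F] (q : ℕ) (hq : 1 ≤ q) (σ : F →+* F) (hσ : ∀ a, σ a = a ^ q)
    (g : SU3 σ) (h1 : g.1.1 1 0 = 0) (h2 : g.1.1 2 0 = 0) :
    g.1.1 2 1 = 0 ∧ g.1.1 0 0 ≠ 0 ∧
    g.1.1 1 1 * g.1.1 0 0 = g.1.1 0 0 ^ q ∧ g.1.1 2 2 * g.1.1 0 0 ^ q = 1 ∧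
    g.1.1 0 0 * g.1.1 1 2 ^ q = g.1.1 0 1 * g.1.1 1 1 ^ q ∧
    g.1.1 0 0 * g.1.1 0 2 ^ q + g.1.1 0 2 * g.1.1 0 0 ^ q = g.1.1 0 1 * g.1.1 0 1 ^ q := by
  have e22 := unb_ent σ g 2 2
  have e20 := unb_ent σ g 2 0
  have e01 := unb_ent σ g 0 1
  have e00 := unb_ent σ g 0 0
  have hd := g.1.2
  rw [Matrix.det_fin_three] at hd
  simp only [hσ, J3, Matrix.of_apply, Matrix.cons_val', Matrix.cons_val_zero,
    Matrix.cons_val_one, Matrix.cons_val] at e22 e20 e01 e00
  rw [h2] at e22 e20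
  rw [h1] at e01
  have hq0 : q ≠ 0 := by omega
  have h21 : g.1.1 2 1 = 0 := by
    have : g.1.1 2 1 ^ (q + 1) = 0 := by
      rw [pow_succ]
      simp only [zero_pow hq0, mul_zero, zero_mul, zero_add, zero_sub] at e22
      linear_combination -e22
    exact pow_eq_zero_iff (by omega) |>.1 this
  have hu : g.1.1 2 2 * g.1.1 0 0 ^ q = 1 := by
    rw [h21] at e20
    linear_combination e20
  have h00 : g.1.1 0 0 ≠ 0 := by
    intro h
    rw [h, zero_pow hq0, mul_zero] at hu
    exact zero_ne_one hu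
  refine ⟨h21, h00, ?_, hu, ?_, ?_⟩
  · rw [h1, h2, h21] at hd
    linear_combination (g.1.1 0 0 ^ q) * hd - (g.1.1 0 0 * g.1.1 1 1) * hu
  · rw [zero_pow hq0] at e01
    linear_combination e01
  · linear_combination e00

/-- `d ^ q + d = w` has `q` solutions if `w ^ q = w` -/
theorem unb_tr (p : ℕ) (F : Type) [Field F] (f q : ℕ) (σ : F →+* F) (hp : p.Prime) (hf : 1 ≤ f)
    (hq : q = p ^ f) (hF : Nat.card F = q ^ 2) (hσ : ∀ a, σ a = a ^ q) (w : F) (hw : w ^ q = w) :
    Nat.card {d : F // d ^ q + d = w} = q := by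
  classical
  have hq2 : 2 ≤ q := by
    rw [hq]
    exact le_trans hp.two_le (Nat.le_self_pow (by omega) p)
  have hfin : Finite F := by
    apply Nat.finite_of_card_ne_zero
    rw [hF]
    positivity
  have := Fintype.ofFinite F
  have hqq : ∀ z : F, (z ^ q) ^ q = z := by
    intro z
    have h := FiniteField.pow_card z
    rw [← Nat.card_eq_fintype_card, hF, pow_two, pow_mul] at h
    exact h
  let T : F →+ F := σ.toAddMonoidHom + AddMonoidHom.id F
  have hT : ∀ z, T z = z ^ q + z := by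
    intro z
    show σ z + z = _
    rw [hσ]
  have hker : Nat.card T.ker ≤ q := by
    let P : Polynomial F := Polynomial.X ^ q + Polynomial.X
    have hP : P.natDegree = q := by
      show (Polynomial.X ^ q + Polynomial.X : Polynomial F).natDegree = q
      rw [Polynomial.natDegree_add_eq_left_of_natDegree_lt]
      · exact Polynomial.natDegree_X_pow q
      · rw [Polynomial.natDegree_X_pow, Polynomial.natDegree_X]
        omega
    have hP0 : P ≠ 0 := by
      intro h
      rw [h, Polynomial.natDegree_zero] at hP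
      omega
    have hsub : (T.ker : Set F) ⊆ (P.roots.toFinset : Set F) := by
      intro z hz
      have h1 : T z = 0 := hz
      rw [hT] at h1
      rw [Finset.mem_coe, Multiset.mem_toFinset, Polynomial.mem_roots hP0]
      show Polynomial.eval z (Polynomial.X ^ q + Polynomial.X) = 0
      rw [Polynomial.eval_add, Polynomial.eval_pow, Polynomial.eval_X]
      exact h1
    calc Nat.card T.ker = Set.ncard (T.ker : Set F) := rfl
      _ ≤ Set.ncard (P.roots.toFinset : Set F) := Set.ncard_le_ncard hsub (Finset.finite_toSet _)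
      _ = P.roots.toFinset.card := Set.ncard_coe_finset _
      _ ≤ Multiset.card P.roots := Multiset.toFinset_card_le _
      _ ≤ P.natDegree := Polynomial.card_roots' P
      _ = q := hP
  have hfix : Set.ncard {z : F | z ^ q = z} ≤ q := by
    let P : Polynomial F := Polynomial.X ^ q - Polynomial.X
    have hP : P.natDegree = q := by
      show (Polynomial.X ^ q - Polynomial.X : Polynomial F).natDegree = q
      rw [Polynomial.natDegree_sub_eq_left_of_natDegree_lt]
      · exact Polynomial.natDegree_X_pow q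
      · rw [Polynomial.natDegree_X_pow, Polynomial.natDegree_X]
        omega
    have hP0 : P ≠ 0 := by
      intro h
      rw [h, Polynomial.natDegree_zero] at hP
      omega
    have hsub : {z : F | z ^ q = z} ⊆ (P.roots.toFinset : Set F) := by
      intro z hz
      have h1 : z ^ q = z := hz
      rw [Finset.mem_coe, Multiset.mem_toFinset, Polynomial.mem_roots hP0]
      show Polynomial.eval z (Polynomial.X ^ q - Polynomial.X) = 0
      rw [Polynomial.eval_sub, Polynomial.eval_pow, Polynomial.eval_X, h1, sub_self]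
    calc Set.ncard {z : F | z ^ q = z}
        ≤ Set.ncard (P.roots.toFinset : Set F) := Set.ncard_le_ncard hsub (Finset.finite_toSet _)
      _ = P.roots.toFinset.card := Set.ncard_coe_finset _
      _ ≤ Multiset.card P.roots := Multiset.toFinset_card_le _
      _ ≤ P.natDegree := Polynomial.card_roots' P
      _ = q := hP
  have hrsub : (T.range : Set F) ⊆ {z : F | z ^ q = z} := by
    intro z hz
    obtain ⟨y, hy⟩ := hz
    rw [hT] at hy
    show z ^ q = z
    rw [← hy, ← hσ (y ^ q + y), map_add, hσ, hσ, hqq]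
    exact add_comm _ _
  have hrle : Nat.card T.range ≤ q :=
    le_trans (Set.ncard_le_ncard hrsub (Set.toFinite _)) hfix
  have hmul : Nat.card T.ker * Nat.card T.range = q ^ 2 := by
    rw [← hF, ← AddSubgroup.card_mul_index T.ker, AddSubgroup.index_ker]
  have hk : Nat.card T.ker = q := by
    by_contra h
    have h1 : Nat.card T.ker < q := lt_of_le_of_ne hker h
    have h2 : Nat.card T.ker * Nat.card T.range < q * q :=
      lt_of_le_of_lt (Nat.mul_le_mul_left _ hrle) (Nat.mul_lt_mul_of_pos_right h1 (by omega))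
    rw [hmul, pow_two] at h2
    exact lt_irrefl _ h2
  have hr : Nat.card T.range = q := by
    rw [hk, pow_two] at hmul
    exact Nat.eq_of_mul_eq_mul_left (by omega) hmul
  have hreq : (T.range : Set F) = {z : F | z ^ q = z} := by
    apply Set.eq_of_subset_of_ncard_le hrsub _ (Set.toFinite _)
    calc Set.ncard {z : F | z ^ q = z} ≤ q := hfix
      _ = Nat.card T.range := hr.symm
  have hwm : w ∈ (T.range : Set F) := by
    rw [hreq]
    exact hw
  obtain ⟨d0, hd0⟩ := hwm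
  refine Eq.trans ?_ hk
  refine Nat.card_congr ⟨fun d => ⟨d.1 - d0, ?_⟩, fun z => ⟨z.1 + d0, ?_⟩, ?_, ?_⟩
  · rw [AddMonoidHom.mem_ker, map_sub, hd0, hT, d.2, sub_self]
  · have h1 : T z.1 = 0 := z.2
    rw [← hT, map_add, h1, zero_add, hd0]
  · intro d
    apply Subtype.ext
    show d.1 - d0 + d0 = d.1
    ring
  · intro d
    apply Subtype.ext
    show d.1 + d0 - d0 = d.1
    ring

/-- the element with entries given by `a`, `b`, `d` -/
def unbM {F : Type} [Field F] (q : ℕ) (a b d : F) : Matrix (Fin 3) (Fin 3) F :=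
  !![a, (a * b) ^ q, a * d; 0, a ^ (q - 1), b; 0, 0, (a ^ q)⁻¹]

theorem unbM_det {F : Type} [Field F] (q : ℕ) (hq : 1 ≤ q) (a b d : F) (ha : a ≠ 0) :
    (unbM q a b d).det = 1 := by
  have h : a * a ^ (q - 1) = a ^ q := by
    rw [← pow_succ', Nat.sub_add_cancel hq]
  rw [Matrix.det_fin_three]
  simp only [unbM, Matrix.of_apply, Matrix.cons_val', Matrix.cons_val_zero,
    Matrix.cons_val_one, Matrix.cons_val]
  have h2 : a ^ q * (a ^ q)⁻¹ = 1 := mul_inv_cancel₀ (pow_ne_zero _ ha)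
  linear_combination (a ^ q)⁻¹ * h + h2

theorem unbM_mem {F : Type} [Field F] (q : ℕ) (hq : 1 ≤ q) (σ : F →+* F)
    (hσ : ∀ a, σ a = a ^ q) (hqq : ∀ z : F, (z ^ q) ^ q = z) (a b d : F) (ha : a ≠ 0)
    (hd : d ^ q + d = b ^ (q + 1)) :
    (⟨unbM q a b d, unbM_det q hq a b d ha⟩ : Matrix.SpecialLinearGroup (Fin 3) F) ∈ SU3 σ := by
  show unbM q a b d * J3 F * ((unbM q a b d).map σ)ᵀ = J3 F
  have hq0 : q ≠ 0 := by omega
  have hA : a * a ^ (q - 1) = a ^ q := by
    rw [← pow_succ', Nat.sub_add_cancel hq]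
  have hA2 : a ^ q * (a ^ (q - 1)) ^ q = a := by
    rw [← mul_pow, hA, hqq]
  have haq : a ^ q ≠ 0 := pow_ne_zero _ ha
  have hi1 : ((a ^ q)⁻¹) ^ q = a⁻¹ := by
    rw [inv_pow, hqq]
  have hAu : a ^ (q - 1) = a ^ q / a := by
    field_simp
    linear_combination hA
  have hAv : (a ^ (q - 1)) ^ q = a / a ^ q := by
    field_simp
    linear_combination hA2
  have hab : ((a * b) ^ q) ^ q = a * b := hqq _
  ext i j
  simp only [Matrix.mul_apply, J3, Fin.sum_univ_three, Matrix.transpose_apply, Matrix.map_apply,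
    Matrix.of_apply, Matrix.cons_val', Matrix.cons_val_zero, Matrix.cons_val_one,
    Matrix.cons_val, hσ]
  fin_cases i <;> fin_cases j <;>
    simp only [unbM, Matrix.of_apply, Matrix.cons_val', Matrix.cons_val_zero,
      Matrix.cons_val_one, Matrix.cons_val, Fin.zero_eta, Fin.mk_one, Fin.reduceFinMk,
      Matrix.cons_val_fin_one, Fin.isValue]
  · rw [hab, mul_pow, mul_pow]
    linear_combination (a * a ^ q) * hd
  · rw [hAv, zero_pow hq0, mul_pow]
    field_simp
    ring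
  · rw [hi1, zero_pow hq0]
    field_simp
    ring
  · rw [hab, hAu]
    field_simp
    ring
  · rw [hAv, hAu, zero_pow hq0]
    field_simp
    ring
  · rw [zero_pow hq0]
    ring
  · field_simp
    ring
  · rw [zero_pow hq0]
    ring
  · rw [zero_pow hq0]
    ring

/-- the count -/
theorem unb_count (p : ℕ) (F : Type) [Field F] (f q : ℕ) (σ : F →+* F) (hp : p.Prime) (hf : 1 ≤ f)
    (hq : q = p ^ f) (hF : Nat.card F = q ^ 2) (hσ : ∀ a, σ a = a ^ q) (S R : Set F)
    (hS : ∀ a ∈ S, a ≠ 0) :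
    Nat.card {g : SU3 σ // g.1.1 1 0 = 0 ∧ g.1.1 2 0 = 0 ∧ g.1.1 0 0 ∈ S ∧ g.1.1 1 2 ∈ R} =
      Nat.card S * Nat.card R * q := by
  classical
  have hq2 : 2 ≤ q := by
    rw [hq]
    exact le_trans hp.two_le (Nat.le_self_pow (by omega) p)
  have hfin : Finite F := by
    apply Nat.finite_of_card_ne_zero
    rw [hF]
    positivity
  have := Fintype.ofFinite F
  have hqq : ∀ z : F, (z ^ q) ^ q = z := by
    intro z
    have h := FiniteField.pow_card z
    rw [← Nat.card_eq_fintype_card, hF, pow_two, pow_mul] at h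
    exact h
  let Y := Σ x : S × R, {d : F // d ^ q + d = x.2.1 ^ (q + 1)}
  have hY : Nat.card Y = Nat.card S * Nat.card R * q := by
    have : Fintype (S × R) := Fintype.ofFinite _
    show Nat.card (Σ x : S × R, {d : F // d ^ q + d = x.2.1 ^ (q + 1)}) = _
    rw [Nat.card_sigma]
    have hw : ∀ b : F, (b ^ (q + 1)) ^ q = b ^ (q + 1) := by
      intro b
      rw [pow_succ, mul_pow, hqq]
      exact mul_comm _ _
    rw [Finset.sum_congr rfl (fun x _ => unb_tr p F f q σ hp hf hq hF hσ (x.2.1 ^ (q + 1))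
      (hw x.2.1))]
    rw [Finset.sum_const, smul_eq_mul, Finset.card_univ, ← Nat.card_eq_fintype_card,
      Nat.card_prod]
  rw [← hY]
  symm
  apply Nat.card_eq_of_bijective (fun y : Y => (⟨⟨⟨unbM q y.1.1.1 y.1.2.1 y.2.1,
    unbM_det q (by omega) _ _ _ (hS _ y.1.1.2)⟩,
    unbM_mem q (by omega) σ hσ hqq _ _ _ (hS _ y.1.1.2) y.2.2⟩,
    rfl, rfl, y.1.1.2, y.1.2.2⟩ :
      {g : SU3 σ // g.1.1 1 0 = 0 ∧ g.1.1 2 0 = 0 ∧ g.1.1 0 0 ∈ S ∧ g.1.1 1 2 ∈ R}))
  constructor
  · rintro ⟨⟨a, b⟩, d⟩ ⟨⟨a', b'⟩, d'⟩ h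
    have h0 : unbM q a.1 b.1 d.1 = unbM q a'.1 b'.1 d'.1 :=
      congrArg (fun z : {g : SU3 σ // g.1.1 1 0 = 0 ∧ g.1.1 2 0 = 0 ∧ g.1.1 0 0 ∈ S ∧
        g.1.1 1 2 ∈ R} => z.1.1.1) h
    have ha : a.1 = a'.1 := congrFun (congrFun h0 0) 0
    have hb : b.1 = b'.1 := congrFun (congrFun h0 1) 2
    have hd : a.1 * d.1 = a'.1 * d'.1 := congrFun (congrFun h0 0) 2
    have ha2 : a = a' := Subtype.ext ha
    have hb2 : b = b' := Subtype.ext hb
    subst ha2 hb2
    have hd2 : d = d' := Subtype.ext (mul_left_cancel₀ (hS _ a.2) hd)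
    rw [hd2]
  · rintro ⟨g, h10, h20, hs, hr⟩
    obtain ⟨h21, h00, h11, h22, h01, h02⟩ := unb_shape q (by omega) σ hσ g h10 h20
    have haq : g.1.1 0 0 ^ q ≠ 0 := pow_ne_zero _ h00
    have hA : g.1.1 0 0 * g.1.1 0 0 ^ (q - 1) = g.1.1 0 0 ^ q := by
      rw [← pow_succ', Nat.sub_add_cancel (by omega)]
    have e11 : g.1.1 1 1 = g.1.1 0 0 ^ (q - 1) := by
      apply mul_right_cancel₀ h00
      rw [h11, ← hA]
      exact mul_comm _ _
    have e22 : g.1.1 2 2 = (g.1.1 0 0 ^ q)⁻¹ := eq_inv_of_mul_eq_one_left h22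
    have e01 : g.1.1 0 1 = (g.1.1 0 0 * g.1.1 1 2) ^ q := by
      have h1 : (g.1.1 1 1 * g.1.1 0 0) ^ q = g.1.1 0 0 := by
        rw [h11, hqq]
      rw [mul_pow] at h1
      have h2 : g.1.1 0 0 ≠ 0 := h00
      rw [mul_pow]
      apply mul_right_cancel₀ h2
      linear_combination (- g.1.1 0 1) * h1 - (g.1.1 0 0 ^ q) * h01
    have hd : (g.1.1 0 2 / g.1.1 0 0) ^ q + g.1.1 0 2 / g.1.1 0 0 = g.1.1 1 2 ^ (q + 1) := by
      rw [e01, hqq] at h02
      rw [mul_pow] at h02
      rw [div_pow]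
      field_simp
      linear_combination h02
    refine ⟨⟨⟨⟨_, hs⟩, ⟨_, hr⟩⟩, ⟨_, hd⟩⟩, ?_⟩
    apply Subtype.ext
    apply Subtype.ext
    apply Subtype.ext
    show unbM q (g.1.1 0 0) (g.1.1 1 2) (g.1.1 0 2 / g.1.1 0 0) = g.1.1
    have e02 : g.1.1 0 0 * (g.1.1 0 2 / g.1.1 0 0) = g.1.1 0 2 := mul_div_cancel₀ _ h00
    ext i j
    fin_cases i <;> fin_cases j
    · rfl
    · exact e01.symm
    · exact e02
    · exact h10.symm
    · exact e11.symm
    · rfl
    · exact h20.symm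
    · exact h21.symm
    · exact e22.symm

theorem unb_thm : S_UNB := by
  intro p F _ f q σ hp hf hq hF hσ
  have hq2 : 2 ≤ q := by
    rw [hq]
    exact le_trans hp.two_le (Nat.le_self_pow (by omega) p)
  have hfin : Finite F := by
    apply Nat.finite_of_card_ne_zero
    rw [hF]
    positivity
  refine ⟨?_, ?_, ?_, ?_⟩
  · intro g h1 h2
    obtain ⟨h21, h00, h11, h22, h01, h02⟩ := unb_shape q (by omega) σ hσ g h1 h2
    refine ⟨h21, h00, h11, h22, ?_⟩
    intro h
    have e11 : g.1.1 1 1 = 1 := by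
      rw [h, mul_one, one_pow] at h11
      exact h11
    rw [h, e11, one_pow, mul_one, one_mul] at h01
    exact h01.symm
  · have h := unb_count p F f q σ hp hf hq hF hσ {a | a ≠ 0} Set.univ (fun a ha => ha)
    have h1 : Nat.card ({a | a ≠ 0} : Set F) = q ^ 2 - 1 := by
      classical
      have := Fintype.ofFinite F
      have h2 : ({a | a ≠ 0} : Set F) = {0}ᶜ := by
        ext a
        simp
      rw [h2]
      have h3 := Set.ncard_compl ({0} : Set F)
      rw [Set.ncard_singleton, hF] at h3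
      exact h3
    have h2 : Nat.card (Set.univ : Set F) = q ^ 2 := by
      rw [Nat.card_univ, hF]
    rw [h1, h2] at h
    have h4 : Nat.card {g : SU3 σ // g.1.1 1 0 = 0 ∧ g.1.1 2 0 = 0} =
        Nat.card {g : SU3 σ // g.1.1 1 0 = 0 ∧ g.1.1 2 0 = 0 ∧ g.1.1 0 0 ∈ ({a | a ≠ 0} : Set F) ∧
          g.1.1 1 2 ∈ (Set.univ : Set F)} := by
      apply Nat.card_congr
      apply Equiv.subtypeEquivRight
      intro g
      constructor
      · rintro ⟨h5, h6⟩
        exact ⟨h5, h6, (unb_shape q (by omega) σ hσ g h5 h6).2.1, Set.mem_univ _⟩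
      · rintro ⟨h5, h6, _⟩
        exact ⟨h5, h6⟩
    rw [h4, h]
    ring
  · have h := unb_count p F f q σ hp hf hq hF hσ {1} Set.univ
      (fun a ha => by rw [ha]; exact one_ne_zero)
    have h1 : Nat.card ({1} : Set F) = 1 := by simp
    have h2 : Nat.card (Set.univ : Set F) = q ^ 2 := by
      rw [Nat.card_univ, hF]
    rw [h1, h2] at h
    have h4 : Nat.card {g : SU3 σ // g.1.1 1 0 = 0 ∧ g.1.1 2 0 = 0 ∧ g.1.1 0 0 = 1} =
        Nat.card {g : SU3 σ // g.1.1 1 0 = 0 ∧ g.1.1 2 0 = 0 ∧ g.1.1 0 0 ∈ ({1} : Set F) ∧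
          g.1.1 1 2 ∈ (Set.univ : Set F)} := by
      apply Nat.card_congr
      apply Equiv.subtypeEquivRight
      intro g
      constructor
      · rintro ⟨h5, h6, h7⟩
        exact ⟨h5, h6, h7, Set.mem_univ _⟩
      · rintro ⟨h5, h6, h7, _⟩
        exact ⟨h5, h6, h7⟩
    rw [h4, h]
    ring
  · have h := unb_count p F f q σ hp hf hq hF hσ {1} {0}
      (fun a ha => by rw [ha]; exact one_ne_zero)
    have h1 : Nat.card ({1} : Set F) = 1 := by simp
    have h2 : Nat.card ({0} : Set F) = 1 := by simp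
    rw [h1, h2, one_mul, one_mul] at h
    rw [← h]
    rfl

end Pool.CND
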